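import Pool.Agent.X55.HZ.Stm

/-! Project HZ (MP_9c2350_lc), part EUL: Euler trails in directed multigraphs. -/

set_option autoImplicit false

namespace Pool.Agent.X227.HZ

open Finset

/-- trails with edge counts -/
inductive TW {E V : Type} [DecidableEq E] (s t : E → V) : (E → ℕ) → V → V → Prop
  | nil (x : V) : TW s t 0 x x
  | cons (e : E) {g : E → ℕ} {z : V} (h : TW s t g (t e) z) : TW s t (g + (Pi.single e 1 : E → ℕ)) (s e) z

variable {E V : Type} [DecidableEq E] [Fintype E] [DecidableEq V] {s t : E → V}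

theorem sum_add_single (p : E → Prop) [DecidablePred p] (g : E → ℕ) (e : E) :
    (∑ e', if p e' then (g + (Pi.single e 1 : E → ℕ)) e' else 0)
      = (∑ e', if p e' then g e' else 0) + (if p e then 1 else 0) := by
  have h1 : ∀ e' : E, (if p e' then (g + (Pi.single e 1 : E → ℕ)) e' else 0)
      = (if p e' then g e' else 0) + (if e' = e then (if p e then 1 else 0) else 0) := by
    intro e'
    by_cases h : e' = e
    · subst h
      by_cases hp : p e' <;> simp [hp]
    · by_cases hp : p e' <;> simp [h, hp]
  rw [Finset.sum_congr rfl (fun e' _ => h1 e'), Finset.sum_add_distrib]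
  simp

/-- flows -/
def Fl (s t : E → V) (g : E → ℕ) (u v : V) : Prop :=
  ∀ z, (∑ e, if s e = z then g e else 0) + (if z = v then 1 else 0)
    = (∑ e, if t e = z then g e else 0) + (if z = u then 1 else 0)

theorem fl_cons (g : E → ℕ) (e : E) (v : V) :
    Fl s t (g + (Pi.single e 1 : E → ℕ)) (s e) v ↔ Fl s t g (t e) v := by
  unfold Fl
  constructor
  · intro h z
    have := h z
    rw [sum_add_single (fun e' => s e' = z), sum_add_single (fun e' => t e' = z)] at this
    have h1 : (if z = s e then 1 else 0) = (if s e = z then 1 else 0) := by simp [eq_comm]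
    have h2 : (if z = t e then 1 else 0) = (if t e = z then 1 else 0) := by simp [eq_comm]
    rw [h1] at this
    rw [h2]
    omega
  · intro h z
    have := h z
    rw [sum_add_single (fun e' => s e' = z), sum_add_single (fun e' => t e' = z)]
    have h1 : (if z = s e then 1 else 0) = (if s e = z then 1 else 0) := by simp [eq_comm]
    have h2 : (if z = t e then 1 else 0) = (if t e = z then 1 else 0) := by simp [eq_comm]
    rw [h2] at this
    rw [h1]
    omega

theorem TW.fl {g : E → ℕ} {u v : V} (h : TW s t g u v) : Fl s t g u v := by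
  induction h with
  | nil x => intro z; simp
  | cons e h ih => exact (fl_cons _ _ _).2 ih

theorem TW.append {g₁ g₂ : E → ℕ} {u x v : V} (h₁ : TW s t g₁ u x) (h₂ : TW s t g₂ x v) :
    TW s t (g₁ + g₂) u v := by
  induction h₁ with
  | nil x => simpa using h₂
  | cons e h ih =>
    have := TW.cons (s := s) (t := t) e (ih h₂)
    rwa [add_right_comm] at this

theorem TW.visit {g : E → ℕ} {u v : V} (h : TW s t g u v) (e : E) (he : g e ≠ 0) :
    ∃ g₁ g₂, g₁ + g₂ = g ∧ TW s t g₁ u (t e) ∧ TW s t g₂ (t e) v := by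
  induction h with
  | nil x => simp at he
  | @cons e₀ g z h ih =>
    by_cases h0 : e = e₀
    · subst h0
      refine ⟨(Pi.single e 1 : E → ℕ), g, by rw [add_comm], ?_, h⟩
      have := TW.cons (s := s) (t := t) e (TW.nil (t e))
      rwa [zero_add] at this
    · have : g e ≠ 0 := by
        intro hg
        apply he
        simp [hg, h0]
      obtain ⟨g₁, g₂, h12, h1, h2⟩ := ih this
      refine ⟨g₁ + (Pi.single e₀ 1 : E → ℕ), g₂, ?_, TW.cons e₀ h1, h2⟩
      rw [← h12, add_right_comm]

/-- removing an edge -/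
theorem exists_sub (f : E → ℕ) (e : E) (he : f e ≠ 0) : ∃ f', f = f' + (Pi.single e 1 : E → ℕ) := by
  refine ⟨f - (Pi.single e 1 : E → ℕ), ?_⟩
  funext e'
  by_cases h : e' = e
  · subst h
    simp
    omega
  · simp [h]

theorem total_single (f : E → ℕ) (e : E) : ∑ e', (f + (Pi.single e 1 : E → ℕ)) e' = (∑ e', f e') + 1 := by
  have := sum_add_single (fun _ => True) f e
  simpa using this

/-- greedy walks -/
theorem greedy (v : V) : ∀ (N : ℕ) (f : E → ℕ) (u : V), (∑ e, f e) ≤ N → Fl s t f u v →
    ∃ g, (∀ e, g e ≤ f e) ∧ TW s t g u v := by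
  intro N
  induction N with
  | zero =>
    intro f u hN hf
    have hz : ∀ e, f e = 0 := by
      intro e
      have := (Finset.sum_eq_zero_iff (s := univ) (f := f)).1 (by omega) e (mem_univ e)
      exact this
    have := hf u
    simp only [hz, ite_self, Finset.sum_const_zero, zero_add, if_true] at this
    by_cases huv : u = v
    · subst huv
      exact ⟨0, fun e => Nat.zero_le _, TW.nil _⟩
    · simp [huv] at this
  | succ N ih =>
    intro f u hN hf
    by_cases huv : u = v
    · subst huv
      exact ⟨0, fun e => Nat.zero_le _, TW.nil _⟩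
    · have h := hf u
      rw [if_neg huv, if_pos rfl] at h
      have hne : (∑ e, if s e = u then f e else 0) ≠ 0 := by omega
      obtain ⟨e, _, he⟩ := Finset.exists_ne_zero_of_sum_ne_zero hne
      have hse : s e = u := by
        by_contra hc
        simp [hc] at he
      have hfe : f e ≠ 0 := by
        intro hc
        simp [hc] at he
      obtain ⟨f', rfl⟩ := exists_sub f e hfe
      subst hse
      rw [total_single] at hN
      obtain ⟨g, hg, hw⟩ := ih f' (t e) (by omega) ((fl_cons _ _ _).1 hf)
      refine ⟨g + (Pi.single e 1 : E → ℕ), fun e' => ?_, TW.cons e hw⟩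
      have := hg e'
      simp only [Pi.add_apply]
      omega

/-- the visited vertices -/
theorem extend {f g : E → ℕ} {u v : V} (hc : ∀ x y, Relation.ReflTransGen
      (fun a b => ∃ e, s e = a ∧ t e = b ∧ f e ≠ 0) x y)
    (hf : Fl s t f u v) (hg : TW s t g u v) (hle : ∀ e, g e ≤ f e) (hne : ∃ e, g e ≠ f e) :
    ∃ g', TW s t g' u v ∧ (∀ e, g' e ≤ f e) ∧ (∑ e, g e) < ∑ e, g' e := by
  have hV : ∃ (g₁ g₂ : E → ℕ) (x : V) (e : E), g₁ + g₂ = g ∧ TW s t g₁ u x ∧ TW s t g₂ x v ∧
      s e = x ∧ g e < f e := by
    by_contra hcon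
    push Not at hcon
    have hall : ∀ x, ∃ g₁ g₂ : E → ℕ, g₁ + g₂ = g ∧ TW s t g₁ u x ∧ TW s t g₂ x v := by
      intro x
      have := hc u x
      induction this with
      | refl => exact ⟨0, g, by simp, TW.nil _, hg⟩
      | tail _ hbc ih =>
        obtain ⟨e, hs, ht, hfe⟩ := hbc
        obtain ⟨g₁, g₂, h12, h1, h2⟩ := ih
        have := hcon g₁ g₂ _ e h12 h1 h2 hs
        have hge : g e ≠ 0 := by omega
        have := hg.visit e hge
        rw [ht] at this
        exact this
    obtain ⟨e, he⟩ := hne
    obtain ⟨g₁, g₂, h12, h1, h2⟩ := hall (s e)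
    have := hcon g₁ g₂ _ e h12 h1 h2 rfl
    have := hle e
    omega
  obtain ⟨g₁, g₂, x, e, h12, h1, h2, hse, hlt⟩ := hV
  -- the rest `h = f - g` is balanced
  obtain ⟨h, hh⟩ : ∃ h : E → ℕ, f = g + h := ⟨fun e => f e - g e, by
    funext e
    have := hle e
    simp only [Pi.add_apply]
    omega⟩
  have hhe : h e ≠ 0 := by
    intro hc
    rw [hh] at hlt
    simp [hc] at hlt
  obtain ⟨h', rfl⟩ := exists_sub h e hhe
  have hbal : Fl s t (h' + (Pi.single e 1 : E → ℕ)) (s e) (s e) := by
    intro z
    have e1 := hf z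
    have e2 := hg.fl z
    rw [hh] at e1
    have a1 : ∀ p : E → Prop, ∀ [DecidablePred p],
        (∑ e', if p e' then (g + (h' + (Pi.single e 1 : E → ℕ))) e' else 0)
        = (∑ e', if p e' then g e' else 0) + ∑ e', if p e' then (h' + (Pi.single e 1 : E → ℕ)) e' else 0 := by
      intro p _
      rw [← Finset.sum_add_distrib]
      refine Finset.sum_congr rfl fun e' _ => ?_
      by_cases hp : p e' <;> simp [hp]
    rw [a1 (fun e' => s e' = z), a1 (fun e' => t e' = z)] at e1
    omega
  obtain ⟨g₃, hg3, hw3⟩ := greedy (s := s) (t := t) (s e) _ h' (t e) le_rfl ((fl_cons _ _ _).1 hbal)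
  have hw4 := TW.cons (s := s) (t := t) e hw3
  rw [hse] at hw4
  refine ⟨g₁ + ((g₃ + (Pi.single e 1 : E → ℕ)) + g₂), h1.append (hw4.append h2), fun e' => ?_, ?_⟩
  · rw [hh, ← h12]
    have := hg3 e'
    simp only [Pi.add_apply]
    omega
  · have : ∑ e', (g₁ + ((g₃ + (Pi.single e 1 : E → ℕ)) + g₂)) e' = (∑ e', g e') + (∑ e', g₃ e') + 1 := by
      have e1 : ∑ e', (g₁ + ((g₃ + (Pi.single e 1 : E → ℕ)) + g₂)) e'
          = ∑ e', (g e' + (g₃ + (Pi.single e 1 : E → ℕ)) e') := by
        refine Finset.sum_congr rfl fun e' _ => ?_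
        rw [← h12]
        simp only [Pi.add_apply]
        omega
      rw [e1, Finset.sum_add_distrib, total_single, add_assoc]
    rw [this]
    omega

theorem euler {f : E → ℕ} {u v : V} (hc : ∀ x y, Relation.ReflTransGen
      (fun a b => ∃ e, s e = a ∧ t e = b ∧ f e ≠ 0) x y)
    (hf : Fl s t f u v) : TW s t f u v := by
  have key : ∀ (N : ℕ) (g : E → ℕ), (∑ e, f e) - (∑ e, g e) ≤ N → TW s t g u v →
      (∀ e, g e ≤ f e) → TW s t f u v := by
    intro N
    induction N with
    | zero =>
      intro g hN hg hle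
      by_cases hne : ∃ e, g e ≠ f e
      · exfalso
        obtain ⟨e, he⟩ := hne
        have h1 : (∑ e, g e) < ∑ e, f e := Finset.sum_lt_sum (fun e _ => hle e)
          ⟨e, mem_univ e, lt_of_le_of_ne (hle e) he⟩
        omega
      · push Not at hne
        have : g = f := funext hne
        rwa [this] at hg
    | succ N ih =>
      intro g hN hg hle
      by_cases hne : ∃ e, g e ≠ f e
      · obtain ⟨g', hg', hle', hlt⟩ := extend hc hf hg hle hne
        exact ih g' (by omega) hg' hle'
      · push Not at hne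
        have : g = f := funext hne
        rwa [this] at hg
  obtain ⟨g, hg, hw⟩ := greedy (s := s) (t := t) v _ f u le_rfl hf
  exact key _ g le_rfl hw hg

end Pool.Agent.X227.HZ

namespace Pool.Agent.X227.HZ

open Finset Pool.Agent.X55.HZ

theorem TW.wk {n m : ℕ} (F : Fin m → Fin n → Fin n → Prop)
    {g : Fin m × Fin n × Fin n → ℕ} {u v : Fin n}
    (h : TW (fun e : Fin m × Fin n × Fin n => e.2.1) (fun e => e.2.2) g u v)
    (hF : ∀ e, g e ≠ 0 → F e.1 e.2.1 e.2.2) :
    Wk F (fun k => ∑ x, ∑ y, g (k, x, y)) u v := by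
  induction h with
  | nil x =>
    have : (fun k : Fin m => ∑ x : Fin n, ∑ y : Fin n, (0 : Fin m × Fin n × Fin n → ℕ) (k, x, y))
        = 0 := by
      funext k
      simp
    rw [this]
    exact Wk.nil x
  | @cons e g z h ih =>
    have ih' := ih (fun e' he' => hF e' (by simp only [Pi.add_apply]; omega))
    have hE : F e.1 e.2.1 e.2.2 := hF e (by simp)
    have := Wk.cons hE ih'
    have e1 : (fun k => ∑ x, ∑ y, (g + (Pi.single e 1 : Fin m × Fin n × Fin n → ℕ)) (k, x, y))
        = (fun k => ∑ x, ∑ y, g (k, x, y)) + Pi.single e.1 1 := by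
      funext k
      obtain ⟨k₀, x₀, y₀⟩ := e
      simp only [Pi.add_apply, Finset.sum_add_distrib]
      congr 1
      by_cases hk : k = k₀
      · subst hk
        rw [Finset.sum_eq_single x₀, Finset.sum_eq_single y₀]
        · simp
        · intro y _ hy
          rw [Pi.single_eq_of_ne]
          simp [hy]
        · simp
        · intro x _ hx
          apply Finset.sum_eq_zero
          intro y _
          rw [Pi.single_eq_of_ne]
          simp [hx]
        · simp
      · rw [Pi.single_eq_of_ne hk]
        apply Finset.sum_eq_zero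
        intro x _
        apply Finset.sum_eq_zero
        intro y _
        rw [Pi.single_eq_of_ne]
        simp [hk]
    rw [e1]
    exact this

theorem t_EUL : S_EUL := by
  intro n m f u v hc hf
  let G : Fin m × Fin n × Fin n → ℕ := fun e => f e.1 e.2.1 e.2.2
  have hc' : ∀ x y, Relation.ReflTransGen
      (fun a b => ∃ e : Fin m × Fin n × Fin n, e.2.1 = a ∧ e.2.2 = b ∧ G e ≠ 0) x y := by
    intro x y
    have := hc x y
    induction this with
    | refl => exact Relation.ReflTransGen.refl
    | tail _ hbc ih =>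
      obtain ⟨k, hk⟩ := hbc
      exact ih.tail ⟨(k, _, _), rfl, rfl, hk⟩
  have hG : Fl (fun e : Fin m × Fin n × Fin n => e.2.1) (fun e => e.2.2) G u v := by
    intro z
    have := hf z
    have e1 : (∑ e : Fin m × Fin n × Fin n, if e.2.1 = z then G e else 0)
        = ∑ k, ∑ y, f k z y := by
      rw [Fintype.sum_prod_type]
      refine Finset.sum_congr rfl fun k _ => ?_
      rw [Fintype.sum_prod_type, Finset.sum_eq_single z]
      · simp [G]
      · intro x _ hx
        simp [hx]
      · simp
    have e2 : (∑ e : Fin m × Fin n × Fin n, if e.2.2 = z then G e else 0)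
        = ∑ k, ∑ x, f k x z := by
      rw [Fintype.sum_prod_type]
      refine Finset.sum_congr rfl fun k _ => ?_
      rw [Fintype.sum_prod_type]
      refine Finset.sum_congr rfl fun x _ => ?_
      simp [G]
    rw [e1, e2]
    exact this
  exact (euler hc' hG).wk (fun k x y => f k x y ≠ 0) (fun e he => he)

end Pool.Agent.X227.HZ
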